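import Pool.Agent.H12.KP.Targets4

/-! Project KEW, row NULL of `kpi_modules` (helper70): the Nullstellensatz modulo `π`. -/

set_option autoImplicit false

namespace Pool.Agent.H70.KP

open Pool.Agent.H12.KP Polynomial TensorProduct

universe u v

/-- the ideal of positive degree is generated in degree one -/
theorem pos_mem {A : Type u} {D : Type v} [CommRing A] [CommRing D] [Algebra A D]
    (𝒟 : ℕ → Submodule A D) [GradedAlgebra 𝒟] (hgen : Algebra.adjoin A (𝒟 1 : Set D) = ⊤)
    {s : ℕ} (hs : 0 < s) {z : D} (hz : z ∈ 𝒟 s) : z ∈ Ideal.span (𝒟 1 : Set D) := by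
  have key : ∀ x : D, x - GradedRing.projZeroRingHom 𝒟 x ∈ Ideal.span (𝒟 1 : Set D) := by
    intro x
    have hx : x ∈ Algebra.adjoin A (𝒟 1 : Set D) := by rw [hgen]; trivial
    induction hx using Algebra.adjoin_induction with
    | mem x hx =>
      have h0 : GradedRing.projZeroRingHom 𝒟 x = 0 := by
        rw [GradedRing.projZeroRingHom_apply]
        exact DirectSum.decompose_of_mem_ne 𝒟 hx one_ne_zero
      rw [h0, sub_zero]
      exact Ideal.subset_span hx
    | algebraMap r =>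
      have h0 : GradedRing.projZeroRingHom 𝒟 (algebraMap A D r) = algebraMap A D r := by
        rw [GradedRing.projZeroRingHom_apply]
        exact DirectSum.decompose_of_mem_same 𝒟 (SetLike.algebraMap_mem_graded 𝒟 r)
      rw [h0, sub_self]
      exact Ideal.zero_mem _
    | add x y _ _ hx hy =>
      rw [map_add]
      have : x + y - (GradedRing.projZeroRingHom 𝒟 x + GradedRing.projZeroRingHom 𝒟 y) =
          (x - GradedRing.projZeroRingHom 𝒟 x) + (y - GradedRing.projZeroRingHom 𝒟 y) := by ring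
      rw [this]
      exact Ideal.add_mem _ hx hy
    | mul x y _ _ hx hy =>
      rw [map_mul]
      have : x * y - GradedRing.projZeroRingHom 𝒟 x * GradedRing.projZeroRingHom 𝒟 y =
          y * (x - GradedRing.projZeroRingHom 𝒟 x) +
            GradedRing.projZeroRingHom 𝒟 x * (y - GradedRing.projZeroRingHom 𝒟 y) := by ring
      rw [this]
      exact Ideal.add_mem _ (Ideal.mul_mem_left _ _ hx) (Ideal.mul_mem_left _ _ hy)
  have h := key z
  have h0 : GradedRing.projZeroRingHom 𝒟 z = 0 := by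
    rw [GradedRing.projZeroRingHom_apply]
    exact DirectSum.decompose_of_mem_ne 𝒟 hz hs.ne'
  rwa [h0, sub_zero] at h

/-- **NULL** -/
theorem pf_NULL : S_NULL.{u, v} := by
  intro A D _ _ _ 𝒟 _ π m s hs _ hgen β hβ l hl hP
  obtain ⟨I, hI⟩ : ∃ I : Ideal D, I = Ideal.span {algebraMap A D π, β} := ⟨_, rfl⟩
  have hhom : I.IsHomogeneous 𝒟 := by
    rw [hI]
    apply Ideal.homogeneous_span
    intro x hx
    rcases hx with rfl | hx
    · exact ⟨0, SetLike.algebraMap_mem_graded 𝒟 π⟩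
    · rw [Set.mem_singleton_iff] at hx
      rw [hx]
      exact ⟨m, hβ⟩
  have hrad : l ∈ I.radical := by
    rw [hhom.radical_eq, Submodule.mem_sInf]
    rintro J ⟨hJ1, hJ2, hJ3⟩
    by_cases h1 : (𝒟 1 : Set D) ⊆ J
    · exact (Ideal.span_le.2 h1) (pos_mem 𝒟 hgen hs hl)
    · refine hP J ⟨hJ3, hJ1, h1⟩ (hJ2 ?_) (hJ2 ?_)
      · rw [hI]
        exact Ideal.subset_span (Set.mem_insert _ _)
      · rw [hI]
        exact Ideal.subset_span (Set.mem_insert_of_mem _ (Set.mem_singleton _))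
  obtain ⟨k0, hk0⟩ := hrad
  have hmk : m ≤ (k0 + m) * s := by nlinarith
  have hmem : l ^ (k0 + m) ∈ I := by
    rw [pow_add]
    exact Ideal.mul_mem_right _ _ hk0
  rw [hI, Ideal.mem_span_pair] at hmem
  obtain ⟨a, b, hab⟩ := hmem
  have hdeg : l ^ (k0 + m) ∈ 𝒟 ((k0 + m) * s) := by
    have := SetLike.pow_mem_graded (k0 + m) hl
    rwa [smul_eq_mul] at this
  refine ⟨k0 + m, hmk, _, (DirectSum.decompose 𝒟 b ((k0 + m) * s - m)).2, _,
    (DirectSum.decompose 𝒟 a ((k0 + m) * s)).2, ?_⟩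
  have h1 : ((DirectSum.decompose 𝒟 (l ^ (k0 + m)) ((k0 + m) * s) : 𝒟 ((k0 + m) * s)) : D) =
      l ^ (k0 + m) := DirectSum.decompose_of_mem_same 𝒟 hdeg
  have h2 : ((DirectSum.decompose 𝒟 (a * algebraMap A D π) ((k0 + m) * s) :
      𝒟 ((k0 + m) * s)) : D) = (DirectSum.decompose 𝒟 a ((k0 + m) * s) : D) * algebraMap A D π := by
    have := DirectSum.coe_decompose_mul_of_right_mem_of_le 𝒟 (a := a) (n := (k0 + m) * s)
      (SetLike.algebraMap_mem_graded 𝒟 π) (Nat.zero_le _)
    rw [Nat.sub_zero] at this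
    exact this
  have h3 : ((DirectSum.decompose 𝒟 (b * β) ((k0 + m) * s) :
      𝒟 ((k0 + m) * s)) : D) = (DirectSum.decompose 𝒟 b ((k0 + m) * s - m) : D) * β :=
    DirectSum.coe_decompose_mul_of_right_mem_of_le 𝒟 hβ hmk
  rw [← h1, ← hab, DirectSum.decompose_add, DirectSum.add_apply, Submodule.coe_add, h2, h3]
  ring

end Pool.Agent.H70.KP
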